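import Pool.Agent.R919.VH.Defs
import Pool.Agent.R919.AH.Dec

/-!
# Flat classes on products of an arbitrary family with all but few families of elliptic curves
-/

set_option linter.unusedSectionVars false
set_option autoImplicit false

namespace Pool.Agent.R919.VH

open Matrix Pool.Agent.R919.AH Pool.Agent.R919.GT Pool.Agent.R919 Module

section cond

variable {K Γ J : Type} [Field K] [CharZero K] [Group Γ] [DecidableEq J] {B : J → Type}
  [∀ j, Fintype (B j)] [∀ j, DecidableEq (B j)] {ρ : ∀ j, Γ →* Matrix (B j) (B j) K}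
  {χ : Γ →* Kˣ}

/-- The group acts on the factors with an index which is not exceptional by a character. -/
theorem cond_main (o : J) (Q : Matrix (B o) (B o) K) (hQu : IsUnit Q)
    (hQ : ∀ γ, ∃ r : K, (ρ o γ)ᵀ * Q * ρ o γ = r • Q)
    (h1 : ∀ j, j ≠ o → IsEll χ (ρ j))
    (h2 : ∀ i j, i ≠ o → j ≠ o → i ≠ j → NonIso (ρ i) (ρ j)) :
    ∃ S : Finset J, o ∉ S ∧ 2 * S.card ≤ Fintype.card (B o) ∧ (∀ i ∈ S, Linked (ρ o) (ρ i)) ∧
      ∀ (κ : Type) [Fintype κ] [DecidableEq κ] (f : κ → J), (∀ x, f x ∉ S) →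
        ∀ (m : ℤ), ∀ c ∈ tateClasses ρ χ f m, ∀ i ∈ Finset.univ.image f, i ≠ o → ∀ γ,
          gact ρ f i γ c = ((χ γ ^ ((cnt f i / 2 : ℕ) : ℤ) : Kˣ) : K) • c := by
  have hpair : ∀ i t, i ≠ o → t ≠ o → i ≠ t →
      ∃ x ∈ L' (fun j => GT.ext (ρ j)), x t = 0 ∧ x i ≠ 0 :=
    fun i t hi ht hit => pair_ext (h1 i hi) (h1 t ht) (h2 t i ht hi (Ne.symm hit))
  obtain ⟨S, hS1, hS2, hS4, hS3⟩ := exists_finset (ρ := fun j => GT.ext (ρ j)) o
    (Q := Q.map (algebraMap K (AlgebraicClosure K)))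
    (hQu.map (algebraMap K (AlgebraicClosure K)).mapMatrix)
    (by
      intro γ
      obtain ⟨r, hr⟩ := hQ γ
      refine ⟨algebraMap K _ r, ?_⟩
      rw [ext_apply, ← Matrix.transpose_map, ← Matrix.map_mul, ← Matrix.map_mul, hr]
      ext a b
      simp)
    (fun i hi => (h1 i hi).irr_ext) (fun i hi => (h1 i hi).full) hpair
  refine ⟨S, hS1, hS2, fun i hi => linked_of (h1 i fun h => hS1 (h ▸ hi)) (hS4 i hi),
    fun κ _ _ f hf m c hc i hi hio γ => ?_⟩
  have hWS : i ∉ S := by
    obtain ⟨x, _, rfl⟩ := Finset.mem_image.1 hi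
    exact hf x
  refine cond_of f hc (h1 i hio) (fun t ht => ?_) γ
  have ht' := Finset.mem_erase.1 ht
  by_cases hto : t = o
  · subst hto
    exact hS3 i hio hWS
  · exact hpair i t hio hto (Ne.symm ht'.1)

end cond

section flat

variable {Γ J : Type} [Group Γ] [DecidableEq J] {B : J → Type} [∀ j, Fintype (B j)]
  [∀ j, DecidableEq (B j)] (ρ : ∀ j, Γ →* Matrix (B j) (B j) ℚ) {κ : Type} [Fintype κ]
  [DecidableEq κ] (f : κ → J)

theorem mem_flat {c : (∀ x, B (f x)) → ℚ} :
    c ∈ flat ρ f ↔ ∀ γ, tact (fun x => ρ (f x) γ) c = c :=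
  ⟨fun h γ => funext fun I => h γ I, fun h γ I => congrFun (h γ) I⟩

theorem mem_flatIn {W : Finset J} {c : (∀ x, B (f x)) → ℚ} :
    c ∈ flatIn ρ f W ↔ (∀ I I', (∀ x, f x ∈ W → I x = I' x) → c I = c I') ∧
      ∀ γ, wact f ρ W γ c = c :=
  ⟨fun h => ⟨h.1, fun γ => funext fun I => h.2 γ I⟩, fun h => ⟨h.1, fun γ I => congrFun (h.2 γ) I⟩⟩

/-- A class which is flat in the two groups of variables is a sum of products. -/
theorem flat_split {o : J} {W : Finset J} (ho : o ∉ W) (hW : ∀ x, f x = o ∨ f x ∈ W)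
    {c : (∀ x, B (f x)) → ℚ} (h1 : ∀ γ, wact f ρ {o} γ c = c) (h2 : ∀ γ, wact f ρ W γ c = c) :
    c ∈ flatIn ρ f {o} * flatIn ρ f W := by
  have e : c = fun I => c (mixP (fun x => f x = o) I I) := by
    funext I
    congr 1
    funext x
    simp [mixP]
  rw [e]
  refine FE.diag_mem _ _ (fun I' I => c (mixP (fun x => f x = o) I I')) (fun I => ?_) (fun I' => ?_)
  · -- the variables outside
    refine (mem_flatIn ρ f).2 ⟨fun J J' h => ?_, fun γ => ?_⟩
    · congr 1
      funext x
      by_cases hx : f x = o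
      · simp [mixP, hx]
      · simp only [mixP, if_neg hx]
        exact h x ((hW x).resolve_left hx)
    · rw [wact, loc' (fun x => f x = o) _ (fun x hx => if_neg (by rw [hx]; exact ho)) c I]
      funext J
      have h3 := congrFun (h2 γ) (mixP (fun x => f x = o) I J)
      exact h3
  · refine (mem_flatIn ρ f).2 ⟨fun J J' h => ?_, fun γ => ?_⟩
    · congr 1
      funext x
      by_cases hx : f x = o
      · simp only [mixP, if_pos hx]
        exact h x (Finset.mem_singleton.2 hx)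
      · simp [mixP, hx]
    · rw [wact, loc (fun x => f x = o) _ (fun x hx => if_neg (by
        rw [Finset.mem_singleton]
        exact hx)) c I']
      funext J
      have h3 := congrFun (h1 γ) (mixP (fun x => f x = o) J I')
      exact h3

end flat

section main

variable {Γ J : Type} [Group Γ] [DecidableEq J] {B : J → Type} [∀ j, Fintype (B j)]
  [∀ j, DecidableEq (B j)] (ρ : ∀ j, Γ →* Matrix (B j) (B j) ℚ)

/-- **The main theorem.** -/
theorem main (o : J) (Q : Matrix (B o) (B o) ℚ) (hQu : IsUnit Q)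
    (hQ : ∀ γ, ∃ r : ℚ, (ρ o γ)ᵀ * Q * ρ o γ = r • Q)
    (h1 : ∀ j, j ≠ o → IsEll 1 (ρ j))
    (h2 : ∀ i j, i ≠ o → j ≠ o → i ≠ j → NonIso (ρ i) (ρ j)) :
    ∃ S : Finset J, o ∉ S ∧ 2 * S.card ≤ Fintype.card (B o) ∧ (∀ i ∈ S, Linked (ρ o) (ρ i)) ∧
      (∀ (κ : Type) [Fintype κ] [DecidableEq κ] (f : κ → J), (∀ x, f x ∉ S) →
        flat ρ f ≤ flatIn ρ f {o} * flatIn ρ f ((Finset.univ.image f).erase o)) ∧
      ∀ (T : Type) (Z : T → CycleSystem B), (∀ t, Contracts (Z t) o) →
        FlatAlgebraic ρ Z o S → VhcAt ρ Z o →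
          ∀ (κ : Type) [Fintype κ] [DecidableEq κ] (f : κ → J), (∀ x, f x ∉ S) →
            Vhc ρ f Z := by
  obtain ⟨S, hS1, hS2, hS3, hS4⟩ := cond_main (χ := 1) o Q hQu hQ h1 h2
  have hdec : ∀ (κ : Type) [Fintype κ] [DecidableEq κ] (f : κ → J), (∀ x, f x ∉ S) →
      flat ρ f ≤ flatIn ρ f {o} * flatIn ρ f ((Finset.univ.image f).erase o) := by
    intro κ _ _ f hf c hc
    have hc' := (mem_flat ρ f).1 hc
    have ht : c ∈ tateClasses ρ 1 f 0 := by
      refine (mem_tateClasses ρ 1 f).2 ⟨⊤, inferInstance, fun γ _ => ?_⟩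
      rw [hc' γ, zpow_zero, Units.val_one, one_smul]
    have hcond : ∀ i ∈ (Finset.univ.image f).erase o, ∀ γ, gact ρ f i γ c = c := by
      intro i hi γ
      have h3 := hS4 κ f hf 0 c ht i (Finset.mem_of_mem_erase hi) (Finset.ne_of_mem_erase hi) γ
      rwa [MonoidHom.one_apply, _root_.one_zpow, Units.val_one, one_smul] at h3
    have hWc : ∀ γ, wact f ρ ((Finset.univ.image f).erase o) γ c = c := by
      intro γ
      have h3 := wact_smul (χ := (1 : Γ →* ℚˣ)) (ρ := ρ) f (fun _ => 0)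
        (W := (Finset.univ.image f).erase o) (γ := γ) (c := c) (fun j hj => by
          rw [hcond j hj γ, zpow_zero, Units.val_one, one_smul])
      rwa [MonoidHom.one_apply, _root_.one_zpow, Units.val_one, one_smul] at h3
    have ho : o ∉ (Finset.univ.image f).erase o := Finset.notMem_erase o _
    have hW : ∀ x, f x = o ∨ f x ∈ (Finset.univ.image f).erase o := by
      intro x
      by_cases h : f x = o
      · exact Or.inl h
      · exact Or.inr (Finset.mem_erase.2 ⟨h, Finset.mem_image_of_mem f (Finset.mem_univ x)⟩)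
    refine flat_split ρ f ho hW (fun γ => ?_) hWc
    have h3 : (tact (fun x => ρ (f x) γ) : End ℚ ((∀ x, B (f x)) → ℚ)) =
        wact f ρ {o} γ * wact f ρ ((Finset.univ.image f).erase o) γ := by
      rw [wact, wact, ← tact_mul]
      congr 1
      funext x
      rcases hW x with h | h
      · have h4 : f x ∉ (Finset.univ.image f).erase o := fun h' => ho (h ▸ h')
        rw [if_pos (Finset.mem_singleton.2 h), if_neg h4, mul_one]
      · have h4 : f x ∉ ({o} : Finset J) := by
          rw [Finset.mem_singleton]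
          exact fun h' => ho (h' ▸ h)
        rw [if_neg h4, if_pos h, one_mul]
    have h5 := hc' γ
    rw [h3, Module.End.mul_apply, hWc γ] at h5
    exact h5
  refine ⟨S, hS1, hS2, hS3, hdec, fun T Z hZ hA hO κ _ _ f hf c hc t t' hct => ?_⟩
  set W := (Finset.univ.image f).erase o with hWdef
  have ho : o ∉ W := Finset.notMem_erase o _
  have hWS : Disjoint W S := by
    rw [Finset.disjoint_left]
    intro j hj
    obtain ⟨x, _, rfl⟩ := Finset.mem_image.1 (Finset.mem_of_mem_erase hj)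
    exact hf x
  obtain ⟨n, b, hbi, hb, hex⟩ := mem_mul_basis (flatIn ρ f {o}) (flatIn ρ f W)
  obtain ⟨x, hx, rfl⟩ := hex c (hdec κ f hf hc)
  have hcongr : ∀ t, (Z t).alg f (Finset.univ.image f) = (Z t).alg f ({o} ∪ W) := by
    intro t
    refine (Z t).congr f _ _ fun x => ?_
    have hx : f x ∈ Finset.univ.image f := Finset.mem_image_of_mem f (Finset.mem_univ x)
    constructor
    · intro _
      by_cases hxo : f x = o
      · rw [hxo]
        exact Finset.mem_union_left _ (Finset.mem_singleton_self o)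
      · exact Finset.mem_union_right _ (Finset.mem_erase.2 ⟨hxo, hx⟩)
    · exact fun _ => hx
  rw [hcongr] at hct ⊢
  have h3 := hZ t κ f W ho n x b (fun k I I' h => ((mem_flatIn ρ f).1 (hx k)).1 I I'
    fun y hy => h y (Finset.mem_singleton.1 hy)) hbi (fun k => hA κ f W ho hWS t (hb k)) hct
  refine Submodule.sum_mem _ fun k _ => ?_
  exact (Z t').mul f {o} W (Finset.disjoint_singleton_left.2 ho) (x k)
    (hO κ f (x k) (hx k) t t' (h3 k)) (b k) (hA κ f W ho hWS t' (hb k))

end main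

end Pool.Agent.R919.VH
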