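import Pool.Agent.R919.GT.Def
import Pool.Agent.R919.AH.Defs

/-!
# Flat classes on products of families of varieties and the variational Hodge conjecture: definitions
-/

set_option autoImplicit false

namespace Pool.Agent.R919.VH

open Matrix Pool.Agent.R919.AH

section flat

variable {Γ J : Type} [Group Γ] {B : J → Type} [∀ j, Fintype (B j)] [∀ j, DecidableEq (B j)]
  (ρ : ∀ j, Γ →* Matrix (B j) (B j) ℚ) {κ : Type} [Fintype κ] [DecidableEq κ] (f : κ → J)

/-- The flat classes (global sections) in the tensor product over `x : κ` of the local systems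
`ρ (f x)`: the tensors which are invariant under the group `Γ`. -/
def flat : Submodule ℚ ((∀ x, B (f x)) → ℚ) where
  carrier := {c | ∀ (γ : Γ) (I : ∀ x, B (f x)),
    ∑ I' : ∀ x, B (f x), (∏ x, ρ (f x) γ (I x) (I' x)) * c I' = c I}
  zero_mem' := fun γ I => by simp
  add_mem' := by
    intro c d hc hd γ I
    simp only [Pi.add_apply, mul_add, Finset.sum_add_distrib, hc γ I, hd γ I]
  smul_mem' := by
    intro r c hc γ I
    rw [Pi.smul_apply, smul_eq_mul, ← hc γ I, Finset.mul_sum]
    refine Finset.sum_congr rfl fun I' _ => ?_
    rw [Pi.smul_apply, smul_eq_mul]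
    ring

/-- The flat classes in the tensor product of the factors with indices in `W`, as functions which do
not depend on the coordinates of the other factors. -/
def flatIn [DecidableEq J] (W : Finset J) : Submodule ℚ ((∀ x, B (f x)) → ℚ) where
  carrier := {c | (∀ I I', (∀ x, f x ∈ W → I x = I' x) → c I = c I') ∧
    ∀ (γ : Γ) (I : ∀ x, B (f x)), ∑ I' : ∀ x, B (f x),
      (∏ x, (if f x ∈ W then ρ (f x) γ else 1) (I x) (I' x)) * c I' = c I}
  zero_mem' := ⟨fun _ _ _ => rfl, fun γ I => by simp⟩
  add_mem' := by
    rintro c d ⟨hc0, hc⟩ ⟨hd0, hd⟩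
    refine ⟨fun I I' h => ?_, fun γ I => ?_⟩
    · rw [Pi.add_apply, Pi.add_apply, hc0 I I' h, hd0 I I' h]
    · simp only [Pi.add_apply, mul_add, Finset.sum_add_distrib, hc γ I, hd γ I]
  smul_mem' := by
    rintro r c ⟨hc0, hc⟩
    refine ⟨fun I I' h => ?_, fun γ I => ?_⟩
    · rw [Pi.smul_apply, Pi.smul_apply, hc0 I I' h]
    · rw [Pi.smul_apply, smul_eq_mul, ← hc γ I, Finset.mul_sum]
      refine Finset.sum_congr rfl fun I' _ => ?_
      rw [Pi.smul_apply, smul_eq_mul]
      ring

/-- The variational Hodge conjecture for the fibre product of the families with the indices `f x`: a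
flat class which is algebraic on one fibre is algebraic on all fibres. Here `T` is the set of the
points of the universal covering of the base, and `Z t` is the system of the algebraic classes on
the fibres at `t`, transported to the base point. -/
def Vhc [DecidableEq J] {T : Type} (Z : T → CycleSystem B) : Prop :=
  ∀ c ∈ flat ρ f, ∀ t t' : T, c ∈ (Z t).alg f (Finset.univ.image f) →
    c ∈ (Z t').alg f (Finset.univ.image f)

end flat

section sys

variable {Γ J : Type} [Group Γ] [DecidableEq J] {B : J → Type} [∀ j, Fintype (B j)]
  [∀ j, DecidableEq (B j)] (ρ : ∀ j, Γ →* Matrix (B j) (B j) ℚ)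

/-- The variational Hodge conjecture for all fibre powers of the family with index `o`. -/
def VhcAt {T : Type} (Z : T → CycleSystem B) (o : J) : Prop :=
  ∀ (κ : Type) [Fintype κ] [DecidableEq κ] (f : κ → J), ∀ c ∈ flatIn ρ f {o}, ∀ t t' : T,
    c ∈ (Z t).alg f {o} → c ∈ (Z t').alg f {o}

/-- The coefficients of an algebraic class with respect to linearly independent algebraic classes on
the factors with indices different from `o` are algebraic. (If on the product of these factors
homological equivalence is numerical equivalence, as on abelian varieties by the theorem of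
Lieberman, there are dual algebraic classes, and the coefficients are direct images of products of
algebraic classes.) -/
def Contracts (Z : CycleSystem B) (o : J) : Prop :=
  ∀ (κ : Type) [Fintype κ] [DecidableEq κ] (f : κ → J) (W : Finset J), o ∉ W →
    ∀ (n : ℕ) (x e : Fin n → (∀ x, B (f x)) → ℚ),
      (∀ k I I', (∀ y, f y = o → I y = I' y) → x k I = x k I') → LinearIndependent ℚ e →
      (∀ k, e k ∈ Z.alg f W) → ∑ k, x k * e k ∈ Z.alg f ({o} ∪ W) → ∀ k, x k ∈ Z.alg f {o}

/-- All flat classes in the factors with indices in `W` are algebraic, for all finite sets `W` of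
indices not in `S` and different from `o`. (For non-isotrivial families of elliptic curves the flat
classes are generated by the classes of the divisors.) -/
def FlatAlgebraic {T : Type} (Z : T → CycleSystem B) (o : J) (S : Finset J) : Prop :=
  ∀ (κ : Type) [Fintype κ] [DecidableEq κ] (f : κ → J) (W : Finset J), o ∉ W → Disjoint W S →
    ∀ t : T, flatIn ρ f W ≤ (Z t).alg f W

end sys

end Pool.Agent.R919.VH
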